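import Pool.Agent.PQP.StmtsE
import Pool.Agent.Helper54_FLX.All
import Pool.Agent.Helper10_FLX.Exp

/-! Squad PQP, row QDR (helper85). -/

set_option autoImplicit false

open scoped InnerProductSpace Topology ContDiff Manifold
open MeasureTheory Filter Set

noncomputable section

namespace Pool.Agent.PQP.H85

open Pool.Agent.Helper42_Paneitz Pool.Agent.Helper82_Vir Pool.Agent.FLX

/-! ### zonal functions -/

theorem ip_mem (w y : S4) : ⟪(w : E5), (y : E5)⟫_ℝ ∈ Icc (-1 : ℝ) 1 := by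
  have h := abs_real_inner_le_norm (w : E5) (y : E5)
  rw [S4_norm, S4_norm, mul_one] at h
  exact abs_le.1 h

theorem cont_ip (v : E5) : Continuous (fun y : S4 => ⟪v, (y : E5)⟫_ℝ) :=
  continuous_const.inner continuous_subtype_val

theorem cont_zon (w : S4) {φ : ℝ → ℝ} (hφ : ContinuousOn φ (Icc (-1 : ℝ) 1)) :
    Continuous (fun y : S4 => φ ⟪(w : E5), (y : E5)⟫_ℝ) :=
  hφ.comp_continuous (cont_ip w) (ip_mem w)

/-- continuous extension -/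
def ext (φ : ℝ → ℝ) : ℝ → ℝ := IccExtend (by norm_num : (-1 : ℝ) ≤ 1) ((Icc (-1 : ℝ) 1).restrict φ)

theorem cont_ext {φ : ℝ → ℝ} (hφ : ContinuousOn φ (Icc (-1 : ℝ) 1)) : Continuous (ext φ) :=
  (continuousOn_iff_continuous_restrict.1 hφ).Icc_extend'

theorem ext_eq {φ : ℝ → ℝ} {t : ℝ} (ht : t ∈ Icc (-1 : ℝ) 1) : ext φ t = φ t := by
  unfold ext
  rw [IccExtend_of_mem _ _ ht]
  rfl

theorem quad (w : S4) {φ : ℝ → ℝ} (hφ : ContinuousOn φ (Icc (-1 : ℝ) 1)) (b v : E5) :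
    ∫ y : S4, φ ⟪(w : E5), (y : E5)⟫_ℝ * (⟪b, (y : E5)⟫_ℝ * ⟪v, (y : E5)⟫_ℝ) ∂sig =
      (∫ y : S4, φ ⟪(w : E5), (y : E5)⟫_ℝ * ⟪(w : E5), (y : E5)⟫_ℝ ^ 2 ∂sig) *
        (⟪(w : E5), b⟫_ℝ * ⟪(w : E5), v⟫_ℝ) +
      (∫ y : S4, φ ⟪(w : E5), (y : E5)⟫_ℝ * (1 - ⟪(w : E5), (y : E5)⟫_ℝ ^ 2) ∂sig) / 4 *
        (⟪b, v⟫_ℝ - ⟪(w : E5), b⟫_ℝ * ⟪(w : E5), v⟫_ℝ) := by
  have h := FLX.H10.Bf_eq (cont_ext hφ) (w : E5) (S4_norm w) b v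
  have e1 : ∀ y : S4, ext φ ⟪(w : E5), (y : E5)⟫_ℝ = φ ⟪(w : E5), (y : E5)⟫_ℝ :=
    fun y => ext_eq (ip_mem w y)
  unfold FLX.H10.Bf at h
  simp only [e1] at h
  rw [h]
  have hc := cont_zon w hφ
  have e2 : ∫ y : S4, φ ⟪(w : E5), (y : E5)⟫_ℝ * (1 - ⟪(w : E5), (y : E5)⟫_ℝ ^ 2) ∂sig =
      (∫ y : S4, φ ⟪(w : E5), (y : E5)⟫_ℝ ∂sig) -
        ∫ y : S4, φ ⟪(w : E5), (y : E5)⟫_ℝ * (⟪(w : E5), (y : E5)⟫_ℝ * ⟪(w : E5), (y : E5)⟫_ℝ) ∂sig := by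
    have i2 : Integrable (fun y : S4 => φ ⟪(w : E5), (y : E5)⟫_ℝ *
        (⟪(w : E5), (y : E5)⟫_ℝ * ⟪(w : E5), (y : E5)⟫_ℝ)) sig :=
      integrable_cont (hc.mul ((cont_ip w).mul (cont_ip w)))
    rw [← integral_sub (integrable_cont hc) i2]
    congr 1
    funext y
    ring
  have e3 : ∫ y : S4, φ ⟪(w : E5), (y : E5)⟫_ℝ * ⟪(w : E5), (y : E5)⟫_ℝ ^ 2 ∂sig =
      ∫ y : S4, φ ⟪(w : E5), (y : E5)⟫_ℝ *
        (⟪(w : E5), (y : E5)⟫_ℝ * ⟪(w : E5), (y : E5)⟫_ℝ) ∂sig := by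
    congr 1
    funext y
    ring
  rw [e2, e3]

/-- the reflection in the line of `w` -/
def rf (w : S4) : E5 ≃ₗᵢ[ℝ] E5 := Submodule.reflection (ℝ ∙ (w : E5))

theorem rf_apply (w : S4) (v : E5) : rf w v = (2 * ⟪(w : E5), v⟫_ℝ) • (w : E5) - v := by
  unfold rf
  rw [Submodule.reflection_singleton_apply]
  simp only [S4_norm]
  rw [two_smul, ← add_smul]
  congr 2
  simp
  ring

theorem rf_ip_w (w y : S4) : ⟪(w : E5), (act (rf w) y : E5)⟫_ℝ = ⟪(w : E5), (y : E5)⟫_ℝ := by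
  rw [act_coe, rf_apply, inner_sub_right, real_inner_smul_right, real_inner_self_eq_norm_sq,
    S4_norm]
  ring

theorem rf_ip_e (w y : S4) {e : E5} (he : ⟪(w : E5), e⟫_ℝ = 0) :
    ⟪e, (act (rf w) y : E5)⟫_ℝ = -⟪e, (y : E5)⟫_ℝ := by
  rw [act_coe, rf_apply, inner_sub_right, real_inner_smul_right, real_inner_comm (w : E5) e, he]
  ring

/-- symmetrization -/
theorem int_neg (w : S4) {φ : ℝ → ℝ} (hφ : ContinuousOn φ (Icc (-1 : ℝ) 1)) :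
    ∫ y : S4, φ (-⟪(w : E5), (y : E5)⟫_ℝ) ∂sig = ∫ y : S4, φ ⟪(w : E5), (y : E5)⟫_ℝ ∂sig := by
  have h1 := integral_act (LinearIsometryEquiv.neg ℝ) (cont_zon w hφ)
  have h2 : ∀ y : S4, ((act (LinearIsometryEquiv.neg ℝ) y : S4) : E5) = -(y : E5) := fun y => rfl
  simp only [h2, inner_neg_right] at h1
  exact h1

/-- zonal integrals do not depend on the pole -/
theorem int_rot (w w₀ : S4) {φ : ℝ → ℝ} (hφ : ContinuousOn φ (Icc (-1 : ℝ) 1)) :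
    ∫ y : S4, φ ⟪(w : E5), (y : E5)⟫_ℝ ∂sig = ∫ y : S4, φ ⟪(w₀ : E5), (y : E5)⟫_ℝ ∂sig := by
  have hn : ‖(w₀ : E5)‖ = ‖(w : E5)‖ := by rw [S4_norm, S4_norm]
  set R : E5 ≃ₗᵢ[ℝ] E5 := Submodule.reflection (ℝ ∙ ((w₀ : E5) - (w : E5)))ᗮ with hR
  have h0 : R (w₀ : E5) = (w : E5) := Submodule.reflection_sub hn
  have h1 := integral_act R (cont_zon w hφ)
  have h2 : ∀ y : S4, ⟪(w : E5), (act R y : E5)⟫_ℝ = ⟪(w₀ : E5), (y : E5)⟫_ℝ := by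
    intro y
    rw [act_coe, ← h0, R.inner_map_map]
  simp only [h2] at h1
  exact h1.symm

theorem self_form (T : E5 →L[ℝ] E5) (hT : ∀ u v : E5, ⟪T u, v⟫_ℝ = ⟪u, T v⟫_ℝ) (y : E5) :
    ⟪T y, y⟫_ℝ = ∑ i : Fin 5, ⟪T (ee i), y⟫_ℝ * ⟪ee i, y⟫_ℝ := by
  conv_lhs => rw [← sum_ee y]
  rw [sum_ee y, ← sum_ee y, inner_sum]
  rw [sum_ee y]
  apply Finset.sum_congr rfl
  intro i _
  rw [real_inner_smul_right, hT, real_inner_comm, inner_ee']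
  ring

/-- the integral of a quadratic form with a zonal weight -/
theorem quadT (w : S4) {φ : ℝ → ℝ} (hφ : ContinuousOn φ (Icc (-1 : ℝ) 1)) (T : E5 →L[ℝ] E5)
    (hT : ∀ u v : E5, ⟪T u, v⟫_ℝ = ⟪u, T v⟫_ℝ) :
    ∫ y : S4, φ ⟪(w : E5), (y : E5)⟫_ℝ * ⟪T (y : E5), (y : E5)⟫_ℝ ∂sig =
      (∫ y : S4, φ ⟪(w : E5), (y : E5)⟫_ℝ * ⟪(w : E5), (y : E5)⟫_ℝ ^ 2 ∂sig) *
        ⟪T (w : E5), (w : E5)⟫_ℝ +
      (∫ y : S4, φ ⟪(w : E5), (y : E5)⟫_ℝ * (1 - ⟪(w : E5), (y : E5)⟫_ℝ ^ 2) ∂sig) / 4 *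
        (tr5 T - ⟪T (w : E5), (w : E5)⟫_ℝ) := by
  have e1 : ∀ y : S4, φ ⟪(w : E5), (y : E5)⟫_ℝ * ⟪T (y : E5), (y : E5)⟫_ℝ =
      ∑ i : Fin 5, φ ⟪(w : E5), (y : E5)⟫_ℝ * (⟪T (ee i), (y : E5)⟫_ℝ * ⟪ee i, (y : E5)⟫_ℝ) := by
    intro y
    rw [self_form T hT, Finset.mul_sum]
  simp only [e1]
  have i1 : ∀ i ∈ (Finset.univ : Finset (Fin 5)), Integrable (fun y : S4 =>
      φ ⟪(w : E5), (y : E5)⟫_ℝ * (⟪T (ee i), (y : E5)⟫_ℝ * ⟪ee i, (y : E5)⟫_ℝ)) sig :=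
    fun i _ => integrable_cont ((cont_zon w hφ).mul ((cont_ip (T (ee i))).mul (cont_ip (ee i))))
  rw [integral_finsetSum _ i1]
  simp only [quad w hφ]
  have e2 : ⟪T (w : E5), (w : E5)⟫_ℝ = ∑ i : Fin 5, ⟪(w : E5), T (ee i)⟫_ℝ * ⟪(w : E5), ee i⟫_ℝ := by
    rw [self_form T hT]
    apply Finset.sum_congr rfl
    intro i _
    rw [real_inner_comm, real_inner_comm (ee i)]
  rw [Finset.sum_add_distrib, ← Finset.mul_sum, ← Finset.mul_sum, Finset.sum_sub_distrib, ← e2, tr5]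

/-! ### the position of the image point -/

section main

variable (mow : MowStmt)

/-- `⟨w, z⟩` -/
def ze (l s : ℝ) : ℝ := (l + s) / (1 + l * s)

/-- the factor `σ / (1 + l s)` -/
def ka (l s : ℝ) : ℝ := √(1 - l ^ 2) / (1 + l * s)

/-- the coefficient of `w` -/
def al (l s : ℝ) : ℝ := ze l s - ka l s * s

theorem den_pos {l s : ℝ} (hl0 : 0 ≤ l) (hl : l < 1) (hs : s ∈ Icc (-1 : ℝ) 1) : 0 < 1 + l * s := by
  nlinarith [hs.1, hs.2]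

theorem cont_den {l : ℝ} : ContinuousOn (fun s : ℝ => 1 + l * s) (Icc (-1 : ℝ) 1) := by
  fun_prop

theorem cont_ze {l : ℝ} (hl0 : 0 ≤ l) (hl : l < 1) : ContinuousOn (ze l) (Icc (-1 : ℝ) 1) := by
  unfold ze
  apply ContinuousOn.div (by fun_prop) (by fun_prop)
  intro s hs
  exact (den_pos hl0 hl hs).ne'

theorem cont_ka {l : ℝ} (hl0 : 0 ≤ l) (hl : l < 1) : ContinuousOn (ka l) (Icc (-1 : ℝ) 1) := by
  unfold ka
  apply ContinuousOn.div (by fun_prop) (by fun_prop)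
  intro s hs
  exact (den_pos hl0 hl hs).ne'

theorem cont_al {l : ℝ} (hl0 : 0 ≤ l) (hl : l < 1) : ContinuousOn (al l) (Icc (-1 : ℝ) 1) := by
  unfold al
  exact (cont_ze hl0 hl).sub ((cont_ka hl0 hl).mul continuousOn_id)

include mow in
theorem mob_eq (w y : S4) {l : ℝ} (hl0 : 0 ≤ l) (hl : l < 1) :
    (mob (l • (w : E5)) y : E5) = al l ⟪(w : E5), (y : E5)⟫_ℝ • (w : E5) +
      ka l ⟪(w : E5), (y : E5)⟫_ℝ • (y : E5) := by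
  obtain ⟨-, h1, h2, h3, -⟩ := mow w y l hl0 hl
  apply ext_inner_left ℝ
  intro v
  have hww : ⟪(w : E5), (w : E5)⟫_ℝ = 1 := by
    rw [real_inner_self_eq_norm_sq, S4_norm]
    norm_num
  have h4 : ⟪(w : E5), v - ⟪(w : E5), v⟫_ℝ • (w : E5)⟫_ℝ = 0 := by
    rw [inner_sub_right, real_inner_smul_right, hww]
    ring
  have h5 := h3 _ h4
  rw [inner_sub_left, real_inner_smul_left, h2, inner_sub_left, real_inner_smul_left] at h5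
  rw [inner_add_right, real_inner_smul_right, real_inner_smul_right, real_inner_comm (w : E5) v,
    al, ka, ze]
  have h6 : ⟪v, (mob (l • (w : E5)) y : E5)⟫_ℝ =
      ⟪(w : E5), v⟫_ℝ * ((l + ⟪(w : E5), (y : E5)⟫_ℝ) / (1 + l * ⟪(w : E5), (y : E5)⟫_ℝ)) +
      √(1 - l ^ 2) * (⟪v, (y : E5)⟫_ℝ - ⟪(w : E5), v⟫_ℝ * ⟪(w : E5), (y : E5)⟫_ℝ) /
        (1 + l * ⟪(w : E5), (y : E5)⟫_ℝ) := by
    linarith
  rw [h6]
  ring

include mow in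
theorem form_eq (T : E5 →L[ℝ] E5) (hT : ∀ u v : E5, ⟪T u, v⟫_ℝ = ⟪u, T v⟫_ℝ) (w y : S4) {l : ℝ}
    (hl0 : 0 ≤ l) (hl : l < 1) :
    ⟪T (mob (l • (w : E5)) y : E5), (mob (l • (w : E5)) y : E5)⟫_ℝ =
      al l ⟪(w : E5), (y : E5)⟫_ℝ ^ 2 * ⟪T (w : E5), (w : E5)⟫_ℝ +
      2 * (al l ⟪(w : E5), (y : E5)⟫_ℝ * ka l ⟪(w : E5), (y : E5)⟫_ℝ) * ⟪T (w : E5), (y : E5)⟫_ℝ +
      ka l ⟪(w : E5), (y : E5)⟫_ℝ ^ 2 * ⟪T (y : E5), (y : E5)⟫_ℝ := by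
  rw [mob_eq mow w y hl0 hl, map_add, map_smul, map_smul, inner_add_left, inner_add_right,
    inner_add_right]
  simp only [real_inner_smul_left, real_inner_smul_right]
  have h1 : ⟪T (y : E5), (w : E5)⟫_ℝ = ⟪T (w : E5), (y : E5)⟫_ℝ := by
    rw [hT, real_inner_comm]
  rw [h1]
  ring

/-- the basic function `s (1 - s²)/(1 + l s)²` -/
def fA (l s : ℝ) : ℝ := s * (1 - s ^ 2) / (1 + l * s) ^ 2

/-- the basic function `(l + s) (1 - s²)/(1 + l s)²` -/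
def fB (l s : ℝ) : ℝ := (l + s) * (1 - s ^ 2) / (1 + l * s) ^ 2

theorem aux_div (x s D : ℝ) (hD : D ≠ 0) :
    x * s * (1 - s ^ 2) = x * D ^ 2 * (s * (1 - s ^ 2) / D ^ 2) := by
  field_simp

theorem cont_fA {l : ℝ} (hl0 : 0 ≤ l) (hl : l < 1) : ContinuousOn (fA l) (Icc (-1 : ℝ) 1) := by
  unfold fA
  apply ContinuousOn.div (by fun_prop) (by fun_prop)
  intro s hs
  exact (pow_pos (den_pos hl0 hl hs) 2).ne'

theorem cont_fB {l : ℝ} (hl0 : 0 ≤ l) (hl : l < 1) : ContinuousOn (fB l) (Icc (-1 : ℝ) 1) := by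
  unfold fB
  apply ContinuousOn.div (by fun_prop) (by fun_prop)
  intro s hs
  exact (pow_pos (den_pos hl0 hl hs) 2).ne'

theorem ka_sq {l s : ℝ} (hl : l ^ 2 ≤ 1) (hd : 0 < 1 + l * s) :
    ka l s ^ 2 * (1 + l * s) ^ 2 = 1 - l ^ 2 := by
  unfold ka
  rw [div_pow, Real.sq_sqrt (by linarith)]
  field_simp

theorem ze_sq {l s : ℝ} (hl : l ^ 2 ≤ 1) (hd : 0 < 1 + l * s) :
    (al l s + ka l s * s) ^ 2 = 1 - (1 - l ^ 2) * ((1 - s ^ 2) / (1 + l * s) ^ 2) := by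
  have h1 : al l s + ka l s * s = ze l s := by
    unfold al
    ring
  rw [h1, ze]
  field_simp
  ring

include mow in
/-- the first formula -/
theorem first (T : E5 →L[ℝ] E5) (hT : ∀ u v : E5, ⟪T u, v⟫_ℝ = ⟪u, T v⟫_ℝ) (w : S4) {l : ℝ}
    (hl0 : 0 ≤ l) (hl : l < 1) :
    ∫ y, ⟪T (mob (l • (w : E5)) y : E5), (mob (l • (w : E5)) y : E5)⟫_ℝ *
          ⟪(w : E5), (y : E5)⟫_ℝ ∂sig =
      (tr5 T - 5 * ⟪T (w : E5), (w : E5)⟫_ℝ) * ((1 - l ^ 2) *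
        (∫ y : S4, fA l ⟪(w : E5), (y : E5)⟫_ℝ ∂sig) / 4) := by
  have hl2 : l ^ 2 ≤ 1 := by nlinarith
  have cal := cont_al hl0 hl
  have cka := cont_ka hl0 hl
  have cid : ContinuousOn (fun s : ℝ => s) (Icc (-1 : ℝ) 1) := continuousOn_id
  set A := ⟪T (w : E5), (w : E5)⟫_ℝ with hA
  -- the three parts
  have e0 : ∀ y : S4, ⟪T (mob (l • (w : E5)) y : E5), (mob (l • (w : E5)) y : E5)⟫_ℝ *
      ⟪(w : E5), (y : E5)⟫_ℝ =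
      A * (al l ⟪(w : E5), (y : E5)⟫_ℝ ^ 2 * ⟪(w : E5), (y : E5)⟫_ℝ) +
      (2 * (al l ⟪(w : E5), (y : E5)⟫_ℝ * ka l ⟪(w : E5), (y : E5)⟫_ℝ)) *
        (⟪T (w : E5), (y : E5)⟫_ℝ * ⟪(w : E5), (y : E5)⟫_ℝ) +
      (ka l ⟪(w : E5), (y : E5)⟫_ℝ ^ 2 * ⟪(w : E5), (y : E5)⟫_ℝ) *
        ⟪T (y : E5), (y : E5)⟫_ℝ := by
    intro y
    rw [form_eq mow T hT w y hl0 hl]
    ring
  have c1 : ContinuousOn (fun s : ℝ => al l s ^ 2 * s) (Icc (-1 : ℝ) 1) := (cal.pow 2).mul cid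
  have c2 : ContinuousOn (fun s : ℝ => 2 * (al l s * ka l s)) (Icc (-1 : ℝ) 1) :=
    continuousOn_const.mul (cal.mul cka)
  have c3 : ContinuousOn (fun s : ℝ => ka l s ^ 2 * s) (Icc (-1 : ℝ) 1) := (cka.pow 2).mul cid
  have hTy : Continuous (fun y : S4 => ⟪T (y : E5), (y : E5)⟫_ℝ) :=
    (T.continuous.comp continuous_subtype_val).inner continuous_subtype_val
  simp only [e0]
  have i1 : Integrable (fun y : S4 => A * (al l ⟪(w : E5), (y : E5)⟫_ℝ ^ 2 *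
      ⟪(w : E5), (y : E5)⟫_ℝ)) sig := integrable_cont (continuous_const.mul (cont_zon w c1))
  have i2 : Integrable (fun y : S4 =>
      (2 * (al l ⟪(w : E5), (y : E5)⟫_ℝ * ka l ⟪(w : E5), (y : E5)⟫_ℝ)) *
        (⟪T (w : E5), (y : E5)⟫_ℝ * ⟪(w : E5), (y : E5)⟫_ℝ)) sig :=
    integrable_cont ((cont_zon w c2).mul ((cont_ip _).mul (cont_ip _)))
  have i3 : Integrable (fun y : S4 => (ka l ⟪(w : E5), (y : E5)⟫_ℝ ^ 2 *
      ⟪(w : E5), (y : E5)⟫_ℝ) * ⟪T (y : E5), (y : E5)⟫_ℝ) sig :=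
    integrable_cont ((cont_zon w c3).mul hTy)
  have i12 : Integrable (fun y : S4 => A * (al l ⟪(w : E5), (y : E5)⟫_ℝ ^ 2 *
      ⟪(w : E5), (y : E5)⟫_ℝ) + (2 * (al l ⟪(w : E5), (y : E5)⟫_ℝ * ka l ⟪(w : E5), (y : E5)⟫_ℝ)) *
        (⟪T (w : E5), (y : E5)⟫_ℝ * ⟪(w : E5), (y : E5)⟫_ℝ)) sig := i1.add i2
  rw [integral_add i12 i3, integral_add i1 i2, integral_const_mul]
  have h2 := quad w c2 (T (w : E5)) (w : E5)
  have h3 := quadT w c3 T hT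
  have hww : ⟪(w : E5), (w : E5)⟫_ℝ = 1 := by
    rw [real_inner_self_eq_norm_sq, S4_norm]
    norm_num
  have hwT : ⟪(w : E5), T (w : E5)⟫_ℝ = A := by rw [real_inner_comm]
  rw [hww, hwT, ← hA] at h2
  rw [h2, h3, ← hA]
  -- the fourth integral
  have e4 : ∫ y : S4, ka l ⟪(w : E5), (y : E5)⟫_ℝ ^ 2 * ⟪(w : E5), (y : E5)⟫_ℝ *
      (1 - ⟪(w : E5), (y : E5)⟫_ℝ ^ 2) ∂sig = (1 - l ^ 2) *
        ∫ y : S4, fA l ⟪(w : E5), (y : E5)⟫_ℝ ∂sig := by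
    rw [← integral_const_mul]
    congr 1
    funext y
    have hd := den_pos hl0 hl (ip_mem w y)
    have h5 := ka_sq hl2 hd
    unfold fA
    rw [← h5]
    exact aux_div _ _ _ hd.ne'
  -- the others
  have hodd : ∫ y : S4, ⟪(w : E5), (y : E5)⟫_ℝ ∂sig = 0 := by
    have h5 := int_neg w cid
    rw [integral_neg] at h5
    linarith
  have e5 : (∫ y : S4, al l ⟪(w : E5), (y : E5)⟫_ℝ ^ 2 * ⟪(w : E5), (y : E5)⟫_ℝ ∂sig) +
      (∫ y : S4, 2 * (al l ⟪(w : E5), (y : E5)⟫_ℝ * ka l ⟪(w : E5), (y : E5)⟫_ℝ) *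
        ⟪(w : E5), (y : E5)⟫_ℝ ^ 2 ∂sig) +
      (∫ y : S4, ka l ⟪(w : E5), (y : E5)⟫_ℝ ^ 2 * ⟪(w : E5), (y : E5)⟫_ℝ *
        ⟪(w : E5), (y : E5)⟫_ℝ ^ 2 ∂sig) =
      -((1 - l ^ 2) * ∫ y : S4, fA l ⟪(w : E5), (y : E5)⟫_ℝ ∂sig) := by
    have c4 : ContinuousOn (fun s : ℝ => 2 * (al l s * ka l s) * s ^ 2) (Icc (-1 : ℝ) 1) :=
      c2.mul (cid.pow 2)
    have c5 : ContinuousOn (fun s : ℝ => ka l s ^ 2 * s * s ^ 2) (Icc (-1 : ℝ) 1) :=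
      c3.mul (cid.pow 2)
    have j1 := integrable_cont (cont_zon w c1)
    have j4 := integrable_cont (cont_zon w c4)
    have j5 := integrable_cont (cont_zon w c5)
    have j14 : Integrable (fun y : S4 => al l ⟪(w : E5), (y : E5)⟫_ℝ ^ 2 *
        ⟪(w : E5), (y : E5)⟫_ℝ + 2 * (al l ⟪(w : E5), (y : E5)⟫_ℝ * ka l ⟪(w : E5), (y : E5)⟫_ℝ) *
          ⟪(w : E5), (y : E5)⟫_ℝ ^ 2) sig := j1.add j4
    rw [← integral_add j1 j4, ← integral_add j14 j5, ← integral_const_mul]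
    have h6 : ∀ y : S4, al l ⟪(w : E5), (y : E5)⟫_ℝ ^ 2 * ⟪(w : E5), (y : E5)⟫_ℝ +
        2 * (al l ⟪(w : E5), (y : E5)⟫_ℝ * ka l ⟪(w : E5), (y : E5)⟫_ℝ) *
          ⟪(w : E5), (y : E5)⟫_ℝ ^ 2 +
        ka l ⟪(w : E5), (y : E5)⟫_ℝ ^ 2 * ⟪(w : E5), (y : E5)⟫_ℝ * ⟪(w : E5), (y : E5)⟫_ℝ ^ 2 =
        ⟪(w : E5), (y : E5)⟫_ℝ - (1 - l ^ 2) * fA l ⟪(w : E5), (y : E5)⟫_ℝ := by
      intro y
      have h7 := ze_sq hl2 (den_pos hl0 hl (ip_mem w y))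
      unfold fA
      have h8 : ⟪(w : E5), (y : E5)⟫_ℝ * (1 - ⟪(w : E5), (y : E5)⟫_ℝ ^ 2) /
          (1 + l * ⟪(w : E5), (y : E5)⟫_ℝ) ^ 2 = ⟪(w : E5), (y : E5)⟫_ℝ *
          ((1 - ⟪(w : E5), (y : E5)⟫_ℝ ^ 2) / (1 + l * ⟪(w : E5), (y : E5)⟫_ℝ) ^ 2) := by
        ring
      rw [h8]
      linear_combination ⟪(w : E5), (y : E5)⟫_ℝ * h7
    simp only [h6]
    have j6 : Integrable (fun y : S4 => ⟪(w : E5), (y : E5)⟫_ℝ) sig :=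
      integrable_cont (cont_zon w cid)
    have j7 : Integrable (fun y : S4 => (1 - l ^ 2) * fA l ⟪(w : E5), (y : E5)⟫_ℝ) sig :=
      integrable_cont (continuous_const.mul (cont_zon w (cont_fA hl0 hl)))
    rw [integral_sub j6 j7, hodd, zero_sub]
  rw [e4]
  linear_combination A * e5

include mow in
/-- the second formula -/
theorem second (T : E5 →L[ℝ] E5) (hT : ∀ u v : E5, ⟪T u, v⟫_ℝ = ⟪u, T v⟫_ℝ) (w : S4) {l : ℝ}
    (hl0 : 0 ≤ l) (hl : l < 1) {e : E5} (he : ⟪(w : E5), e⟫_ℝ = 0) :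
    ∫ y, ⟪T (mob (l • (w : E5)) y : E5), (mob (l • (w : E5)) y : E5)⟫_ℝ *
          ⟪e, (y : E5)⟫_ℝ ∂sig =
      (∫ y : S4, fB l ⟪(w : E5), (y : E5)⟫_ℝ ∂sig) / 2 * √(1 - l ^ 2) * ⟪T (w : E5), e⟫_ℝ := by
  have hl2 : l ^ 2 ≤ 1 := by nlinarith
  have cal := cont_al hl0 hl
  have cka := cont_ka hl0 hl
  have cze := cont_ze hl0 hl
  have cid : ContinuousOn (fun s : ℝ => s) (Icc (-1 : ℝ) 1) := continuousOn_id
  set A := ⟪T (w : E5), (w : E5)⟫_ℝ with hA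
  have hTy : Continuous (fun y : S4 => ⟪T (y : E5), (y : E5)⟫_ℝ) :=
    (T.continuous.comp continuous_subtype_val).inner continuous_subtype_val
  set G : S4 → ℝ := fun y => (al l ⟪(w : E5), (y : E5)⟫_ℝ ^ 2 * A +
      2 * (al l ⟪(w : E5), (y : E5)⟫_ℝ * ka l ⟪(w : E5), (y : E5)⟫_ℝ) * ⟪T (w : E5), (y : E5)⟫_ℝ +
      ka l ⟪(w : E5), (y : E5)⟫_ℝ ^ 2 * ⟪T (y : E5), (y : E5)⟫_ℝ) * ⟪e, (y : E5)⟫_ℝ with hG
  have c2 : ContinuousOn (fun s : ℝ => 2 * (al l s * ka l s)) (Icc (-1 : ℝ) 1) :=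
    continuousOn_const.mul (cal.mul cka)
  have hGc : Continuous G := by
    apply Continuous.mul _ (cont_ip e)
    exact (((cont_zon w (cal.pow 2)).mul continuous_const).add
      ((cont_zon w c2).mul (cont_ip _))).add ((cont_zon w (cka.pow 2)).mul hTy)
  have e0 : ∀ y : S4, ⟪T (mob (l • (w : E5)) y : E5), (mob (l • (w : E5)) y : E5)⟫_ℝ *
      ⟪e, (y : E5)⟫_ℝ = G y := by
    intro y
    rw [form_eq mow T hT w y hl0 hl]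
  simp only [e0]
  have h1 := integral_act (rf w) hGc
  have c3 : ContinuousOn (fun s : ℝ => 4 * (ze l s * ka l s)) (Icc (-1 : ℝ) 1) :=
    continuousOn_const.mul (cze.mul cka)
  -- `G + G ∘ R`
  have h2 : ∀ y : S4, G (act (rf w) y) = -G y +
      4 * (ze l ⟪(w : E5), (y : E5)⟫_ℝ * ka l ⟪(w : E5), (y : E5)⟫_ℝ) *
        ((⟪T (w : E5), (y : E5)⟫_ℝ - A * ⟪(w : E5), (y : E5)⟫_ℝ) * ⟪e, (y : E5)⟫_ℝ) := by
    intro y
    have h3 := rf_ip_w w y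
    have h4 := rf_ip_e w y he
    have h5 : ⟪T (w : E5), (act (rf w) y : E5)⟫_ℝ =
        2 * ⟪(w : E5), (y : E5)⟫_ℝ * A - ⟪T (w : E5), (y : E5)⟫_ℝ := by
      rw [act_coe, rf_apply, inner_sub_right, real_inner_smul_right, ← hA]
    have h6 : ⟪T (act (rf w) y : E5), (act (rf w) y : E5)⟫_ℝ =
        4 * ⟪(w : E5), (y : E5)⟫_ℝ ^ 2 * A -
          4 * ⟪(w : E5), (y : E5)⟫_ℝ * ⟪T (w : E5), (y : E5)⟫_ℝ + ⟪T (y : E5), (y : E5)⟫_ℝ := by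
      have h7 : ⟪T (y : E5), (w : E5)⟫_ℝ = ⟪T (w : E5), (y : E5)⟫_ℝ := by
        rw [hT, real_inner_comm]
      rw [act_coe, rf_apply, map_sub, map_smul, inner_sub_left, inner_sub_right, inner_sub_right]
      simp only [real_inner_smul_left, real_inner_smul_right]
      rw [h7, ← hA]
      ring
    simp only [hG]
    rw [h3, h4, h5, h6]
    have h8 : ze l ⟪(w : E5), (y : E5)⟫_ℝ = al l ⟪(w : E5), (y : E5)⟫_ℝ +
        ka l ⟪(w : E5), (y : E5)⟫_ℝ * ⟪(w : E5), (y : E5)⟫_ℝ := by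
      unfold al
      ring
    rw [h8]
    ring
  have h3 : ∀ y : S4, (⟪T (w : E5), (y : E5)⟫_ℝ - A * ⟪(w : E5), (y : E5)⟫_ℝ) =
      ⟪T (w : E5) - A • (w : E5), (y : E5)⟫_ℝ := by
    intro y
    rw [inner_sub_left, real_inner_smul_left]
  simp only [h2, h3] at h1
  have i1 : Integrable (fun y : S4 => -G y) sig := integrable_cont hGc.neg
  have i2 : Integrable (fun y : S4 => 4 * (ze l ⟪(w : E5), (y : E5)⟫_ℝ *
      ka l ⟪(w : E5), (y : E5)⟫_ℝ) * (⟪T (w : E5) - A • (w : E5), (y : E5)⟫_ℝ *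
        ⟪e, (y : E5)⟫_ℝ)) sig :=
    integrable_cont ((cont_zon w c3).mul ((cont_ip _).mul (cont_ip _)))
  rw [integral_add i1 i2, integral_neg, quad w c3] at h1
  have hww : ⟪(w : E5), (w : E5)⟫_ℝ = 1 := by
    rw [real_inner_self_eq_norm_sq, S4_norm]
    norm_num
  have h4 : ⟪(w : E5), T (w : E5) - A • (w : E5)⟫_ℝ = 0 := by
    rw [inner_sub_right, real_inner_smul_right, hww, real_inner_comm, ← hA]
    ring
  have h5 : ⟪T (w : E5) - A • (w : E5), e⟫_ℝ = ⟪T (w : E5), e⟫_ℝ := by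
    rw [inner_sub_left, real_inner_smul_left, he]
    ring
  rw [h4, he, h5] at h1
  have h6 : ∫ y : S4, 4 * (ze l ⟪(w : E5), (y : E5)⟫_ℝ * ka l ⟪(w : E5), (y : E5)⟫_ℝ) *
      (1 - ⟪(w : E5), (y : E5)⟫_ℝ ^ 2) ∂sig =
      4 * √(1 - l ^ 2) * ∫ y : S4, fB l ⟪(w : E5), (y : E5)⟫_ℝ ∂sig := by
    rw [← integral_const_mul]
    congr 1
    funext y
    have hd := den_pos hl0 hl (ip_mem w y)
    unfold fB ze ka
    field_simp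
  rw [h6] at h1
  linarith

end main

/-! ### scalar estimates -/

/-- a fixed pole -/
def w₀ : S4 := ⟨ee 0, mem_sphere_zero_iff_norm.2 (norm_ee 0)⟩

def y₁ : S4 := ⟨(3 / 5 : ℝ) • ee 0 + (4 / 5 : ℝ) • ee 1, by
  rw [mem_sphere_zero_iff_norm]
  have h : ‖(3 / 5 : ℝ) • ee 0 + (4 / 5 : ℝ) • ee 1‖ ^ 2 = 1 := by
    rw [norm_add_sq_real, norm_smul, norm_smul, norm_ee, norm_ee, real_inner_smul_left,
      real_inner_smul_right, inner_ee_ee (by decide : (0 : Fin 5) ≠ 1)]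
    norm_num
  have h1 := norm_nonneg ((3 / 5 : ℝ) • ee 0 + (4 / 5 : ℝ) • ee 1)
  nlinarith⟩

theorem ip_w₀_y₁ : ⟪(w₀ : E5), (y₁ : E5)⟫_ℝ = 3 / 5 := by
  show ⟪ee 0, (3 / 5 : ℝ) • ee 0 + (4 / 5 : ℝ) • ee 1⟫_ℝ = 3 / 5
  rw [inner_add_right, real_inner_smul_right, real_inner_smul_right, real_inner_self_eq_norm_sq,
    norm_ee, inner_ee_ee (by decide : (0 : Fin 5) ≠ 1)]
  norm_num

theorem cont1 : ContinuousOn (fun s : ℝ => s ^ 2 * (1 - s ^ 2)) (Icc (-1 : ℝ) 1) := by fun_prop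

theorem cont2 : ContinuousOn (fun s : ℝ => (1 - s ^ 2) ^ 2) (Icc (-1 : ℝ) 1) := by fun_prop

theorem sq_le {s : ℝ} (hs : s ∈ Icc (-1 : ℝ) 1) : s ^ 2 ≤ 1 := by nlinarith [hs.1, hs.2]

theorem c1_pos : 0 < ∫ y : S4, ⟪(w₀ : E5), (y : E5)⟫_ℝ ^ 2 * (1 - ⟪(w₀ : E5), (y : E5)⟫_ℝ ^ 2) ∂sig := by
  apply Continuous.integral_pos_of_hasCompactSupport_nonneg_nonzero (x := y₁) (cont_zon w₀ cont1)
    (HasCompactSupport.of_compactSpace _)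
  · intro y
    have := sq_le (ip_mem w₀ y)
    exact mul_nonneg (sq_nonneg _) (by linarith)
  · rw [ip_w₀_y₁]
    norm_num

theorem c2_pos : 0 < ∫ y : S4, (1 - ⟪(w₀ : E5), (y : E5)⟫_ℝ ^ 2) ^ 2 ∂sig := by
  apply Continuous.integral_pos_of_hasCompactSupport_nonneg_nonzero (x := y₁) (cont_zon w₀ cont2)
    (HasCompactSupport.of_compactSpace _)
  · intro y
    exact sq_nonneg _
  · rw [ip_w₀_y₁]
    norm_num

theorem den2_pos {l s : ℝ} (hl0 : 0 ≤ l) (hl : l < 1) (hs : s ∈ Icc (-1 : ℝ) 1) :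
    0 < 1 - l ^ 2 * s ^ 2 := by
  have h1 := sq_le hs
  nlinarith [sq_nonneg s, sq_nonneg l]

/-- the symmetrized functions -/
def gA (l s : ℝ) : ℝ := 2 * l * (s ^ 2 * (1 - s ^ 2)) / (1 - l ^ 2 * s ^ 2) ^ 2

def gB (l s : ℝ) : ℝ := l * ((1 - s ^ 2) * ((1 - s ^ 2) - (1 - l ^ 2) * s ^ 2)) / (1 - l ^ 2 * s ^ 2) ^ 2

theorem cont_gA {l : ℝ} (hl0 : 0 ≤ l) (hl : l < 1) : ContinuousOn (gA l) (Icc (-1 : ℝ) 1) := by
  unfold gA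
  apply ContinuousOn.div (by fun_prop) (by fun_prop)
  intro s hs
  exact (pow_pos (den2_pos hl0 hl hs) 2).ne'

theorem cont_gB {l : ℝ} (hl0 : 0 ≤ l) (hl : l < 1) : ContinuousOn (gB l) (Icc (-1 : ℝ) 1) := by
  unfold gB
  apply ContinuousOn.div (by fun_prop) (by fun_prop)
  intro s hs
  exact (pow_pos (den2_pos hl0 hl hs) 2).ne'

theorem neg_mem {s : ℝ} (hs : s ∈ Icc (-1 : ℝ) 1) : -s ∈ Icc (-1 : ℝ) 1 :=
  ⟨by linarith [hs.2], by linarith [hs.1]⟩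

theorem symA {l s : ℝ} (hl0 : 0 ≤ l) (hl : l < 1) (hs : s ∈ Icc (-1 : ℝ) 1) :
    fA l s + fA l (-s) = -2 * gA l s := by
  have h1 := den_pos hl0 hl hs
  have h2 := den_pos hl0 hl (neg_mem hs)
  have h4 : 1 + l * -s = 1 - l * s := by ring
  rw [h4] at h2
  have h3 : 1 - l ^ 2 * s ^ 2 = (1 + l * s) * (1 - l * s) := by ring
  have ha := h1.ne'
  have hb := h2.ne'
  have e1 : s * (1 - s ^ 2) / (1 + l * s) ^ 2 =
      s * (1 - s ^ 2) * (1 - l * s) ^ 2 / ((1 + l * s) * (1 - l * s)) ^ 2 := by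
    rw [mul_pow, mul_div_mul_right _ _ (pow_ne_zero 2 hb)]
  have e2 : (-s) * (1 - (-s) ^ 2) / (1 - l * s) ^ 2 =
      (-s) * (1 - s ^ 2) * (1 + l * s) ^ 2 / ((1 + l * s) * (1 - l * s)) ^ 2 := by
    rw [neg_sq, mul_pow, mul_comm ((1 + l * s) ^ 2), mul_div_mul_right _ _ (pow_ne_zero 2 ha)]
  unfold fA gA
  rw [h3, h4, e1, e2, ← add_div, ← mul_div_assoc]
  congr 1
  ring

theorem symB {l s : ℝ} (hl0 : 0 ≤ l) (hl : l < 1) (hs : s ∈ Icc (-1 : ℝ) 1) :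
    fB l s + fB l (-s) = 2 * gB l s := by
  have h1 := den_pos hl0 hl hs
  have h2 := den_pos hl0 hl (neg_mem hs)
  have h4 : 1 + l * -s = 1 - l * s := by ring
  rw [h4] at h2
  have h3 : 1 - l ^ 2 * s ^ 2 = (1 + l * s) * (1 - l * s) := by ring
  unfold fB gB
  rw [h3, h4]
  field_simp
  ring

theorem intA (w : S4) {l : ℝ} (hl0 : 0 ≤ l) (hl : l < 1) :
    -∫ y : S4, fA l ⟪(w : E5), (y : E5)⟫_ℝ ∂sig = ∫ y : S4, gA l ⟪(w : E5), (y : E5)⟫_ℝ ∂sig := by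
  have h1 := int_neg w (cont_fA hl0 hl)
  have hc : ContinuousOn (fun s : ℝ => fA l (-s)) (Icc (-1 : ℝ) 1) :=
    (cont_fA hl0 hl).comp continuousOn_neg (fun s hs => neg_mem hs)
  have h2 : ∫ y : S4, (fA l ⟪(w : E5), (y : E5)⟫_ℝ + fA l (-⟪(w : E5), (y : E5)⟫_ℝ)) ∂sig =
      ∫ y : S4, -2 * gA l ⟪(w : E5), (y : E5)⟫_ℝ ∂sig := by
    congr 1
    funext y
    exact symA hl0 hl (ip_mem w y)
  rw [integral_add (integrable_cont (cont_zon w (cont_fA hl0 hl)))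
    (integrable_cont (cont_zon w hc)), integral_const_mul, h1] at h2
  linarith

theorem intB (w : S4) {l : ℝ} (hl0 : 0 ≤ l) (hl : l < 1) :
    ∫ y : S4, fB l ⟪(w : E5), (y : E5)⟫_ℝ ∂sig = ∫ y : S4, gB l ⟪(w : E5), (y : E5)⟫_ℝ ∂sig := by
  have h1 := int_neg w (cont_fB hl0 hl)
  have hc : ContinuousOn (fun s : ℝ => fB l (-s)) (Icc (-1 : ℝ) 1) :=
    (cont_fB hl0 hl).comp continuousOn_neg (fun s hs => neg_mem hs)
  have h2 : ∫ y : S4, (fB l ⟪(w : E5), (y : E5)⟫_ℝ + fB l (-⟪(w : E5), (y : E5)⟫_ℝ)) ∂sig =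
      ∫ y : S4, 2 * gB l ⟪(w : E5), (y : E5)⟫_ℝ ∂sig := by
    congr 1
    funext y
    exact symB hl0 hl (ip_mem w y)
  rw [integral_add (integrable_cont (cont_zon w (cont_fB hl0 hl)))
    (integrable_cont (cont_zon w hc)), integral_const_mul, h1] at h2
  linarith

/-- the singular majorant -/
def HH (s : ℝ) : ℝ := (1 - s) ^ (-1 : ℝ) + (1 - (-s)) ^ (-1 : ℝ)

theorem bound_H {l s : ℝ} (hl0 : 0 ≤ l) (hl : l < 1) (hs : s ∈ Icc (-1 : ℝ) 1) :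
    (1 - s ^ 2) / (1 - l ^ 2 * s ^ 2) ^ 2 ≤ HH s / 2 := by
  have hd := den2_pos hl0 hl hs
  unfold HH
  rw [Real.rpow_neg_one, Real.rpow_neg_one, sub_neg_eq_add]
  rcases eq_or_lt_of_le hs.1 with h | h
  · rw [← h]
    norm_num
  rcases eq_or_lt_of_le hs.2 with h' | h'
  · rw [h']
    norm_num
  have h1 : 0 < 1 - s := by linarith
  have h2 : 0 < 1 + s := by linarith
  have h3 : ((1 - s)⁻¹ + (1 + s)⁻¹) / 2 = 1 / (1 - s ^ 2) := by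
    have : 1 - s ^ 2 = (1 - s) * (1 + s) := by ring
    rw [this]
    field_simp
    ring
  have h4 : 0 < 1 - s ^ 2 := by nlinarith
  have h5 : 1 - s ^ 2 ≤ 1 - l ^ 2 * s ^ 2 := by
    have hl2 : l ^ 2 ≤ 1 := by nlinarith
    nlinarith [mul_le_mul_of_nonneg_right hl2 (sq_nonneg s)]
  rw [h3, div_le_div_iff₀ (pow_pos hd 2) h4]
  nlinarith

theorem gA_lower {l s : ℝ} (hl0 : 1 / 2 ≤ l) (hl : l < 1) (hs : s ∈ Icc (-1 : ℝ) 1) :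
    s ^ 2 * (1 - s ^ 2) ≤ gA l s := by
  have hd := den2_pos (by linarith) hl hs
  have h1 := sq_le hs
  have h2 : (1 - l ^ 2 * s ^ 2) ^ 2 ≤ 1 := by
    have : 0 ≤ l ^ 2 * s ^ 2 := by positivity
    nlinarith
  have h3 : 0 ≤ s ^ 2 * (1 - s ^ 2) := mul_nonneg (sq_nonneg _) (by linarith)
  unfold gA
  rw [le_div_iff₀ (pow_pos hd 2)]
  nlinarith [pow_pos hd 2]

theorem gA_upper {l s : ℝ} (hl0 : 0 ≤ l) (hl : l < 1) (hs : s ∈ Icc (-1 : ℝ) 1) :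
    gA l s ≤ HH s := by
  have hd := den2_pos hl0 hl hs
  have h1 := sq_le hs
  have h2 := bound_H hl0 hl hs
  have h3 : gA l s ≤ 2 * ((1 - s ^ 2) / (1 - l ^ 2 * s ^ 2) ^ 2) := by
    unfold gA
    rw [← mul_div_assoc]
    apply div_le_div_of_nonneg_right _ (pow_pos hd 2).le
    have h4 : 0 ≤ 1 - s ^ 2 := by linarith
    have h5 : l * s ^ 2 ≤ 1 := by nlinarith [sq_nonneg s]
    nlinarith
  linarith

theorem gB_lower {l s : ℝ} (hl0 : 0 ≤ l) (hl : l < 1) (hs : s ∈ Icc (-1 : ℝ) 1) :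
    l * ((1 - s ^ 2) ^ 2 - (1 - l ^ 2) * (HH s / 2)) ≤ gB l s := by
  have hd := den2_pos hl0 hl hs
  have hd2 := pow_pos hd 2
  have h1 := sq_le hs
  have h2 := bound_H hl0 hl hs
  have h4 : 0 ≤ 1 - s ^ 2 := by linarith
  have hle : (1 - l ^ 2 * s ^ 2) ^ 2 ≤ 1 := by
    have : 0 ≤ l ^ 2 * s ^ 2 := by positivity
    nlinarith
  have h5 : (1 - s ^ 2) ^ 2 ≤ (1 - s ^ 2) ^ 2 / (1 - l ^ 2 * s ^ 2) ^ 2 := by
    rw [le_div_iff₀ hd2]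
    nlinarith [sq_nonneg (1 - s ^ 2)]
  have h6 : (1 - s ^ 2) * s ^ 2 / (1 - l ^ 2 * s ^ 2) ^ 2 ≤ HH s / 2 := by
    refine le_trans ?_ h2
    apply div_le_div_of_nonneg_right _ hd2.le
    nlinarith
  have h7 : gB l s = l * ((1 - s ^ 2) ^ 2 / (1 - l ^ 2 * s ^ 2) ^ 2 -
      (1 - l ^ 2) * ((1 - s ^ 2) * s ^ 2 / (1 - l ^ 2 * s ^ 2) ^ 2)) := by
    unfold gB
    field_simp
  rw [h7]
  apply mul_le_mul_of_nonneg_left _ hl0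
  have h8 : 0 ≤ 1 - l ^ 2 := by nlinarith
  have h9 := mul_le_mul_of_nonneg_left h6 h8
  linarith

theorem gB_upper {l s : ℝ} (hl0 : 0 ≤ l) (hl : l < 1) (hs : s ∈ Icc (-1 : ℝ) 1) :
    gB l s ≤ 1 := by
  have hd := den2_pos hl0 hl hs
  have hd2 := pow_pos hd 2
  have h1 := sq_le hs
  have h4 : 0 ≤ 1 - s ^ 2 := by linarith
  have h5 : 1 - s ^ 2 ≤ 1 - l ^ 2 * s ^ 2 := by
    have hl2 : l ^ 2 ≤ 1 := by nlinarith
    nlinarith [mul_le_mul_of_nonneg_right hl2 (sq_nonneg s)]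
  unfold gB
  rw [div_le_one hd2]
  have h6 : (1 - s ^ 2) * ((1 - s ^ 2) - (1 - l ^ 2) * s ^ 2) ≤ (1 - s ^ 2) ^ 2 := by
    have : 0 ≤ (1 - l ^ 2) * s ^ 2 := mul_nonneg (by nlinarith) (sq_nonneg _)
    nlinarith
  have h7 : (1 - s ^ 2) ^ 2 ≤ (1 - l ^ 2 * s ^ 2) ^ 2 := by
    apply pow_le_pow_left₀ h4 h5
  by_cases h8 : 0 ≤ (1 - s ^ 2) * ((1 - s ^ 2) - (1 - l ^ 2) * s ^ 2)
  · nlinarith
  · push Not at h8
    nlinarith

theorem qdr (mow : MowStmt) : QdrStmt := by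
  obtain ⟨C₁, hC₁, hpow⟩ := FLX.H54.pow_all 1 (by norm_num)
  set c₁ := ∫ y : S4, ⟪(w₀ : E5), (y : E5)⟫_ℝ ^ 2 * (1 - ⟪(w₀ : E5), (y : E5)⟫_ℝ ^ 2) ∂sig with hc₁
  set c₂ := ∫ y : S4, (1 - ⟪(w₀ : E5), (y : E5)⟫_ℝ ^ 2) ^ 2 ∂sig with hc₂
  have hc₁p : 0 < c₁ := c1_pos
  have hc₂p : 0 < c₂ := c2_pos
  have hms := msig_pos
  set δ := min (1 / 2) (c₂ / (4 * (C₁ + 1))) with hδ
  have hδ0 : 0 < δ := lt_min (by norm_num) (by positivity)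
  have hδ1 : δ ≤ 1 / 2 := min_le_left _ _
  have hδ2 : δ * (4 * (C₁ + 1)) ≤ c₂ := by
    have h1 : δ ≤ c₂ / (4 * (C₁ + 1)) := min_le_right _ _
    rwa [le_div_iff₀ (by positivity)] at h1
  refine ⟨min (c₁ / 4) (c₂ / 8), C₁ / 2 + msig / 2, 1 - δ, lt_min (by linarith) (by linarith),
    by linarith, by linarith, ?_⟩
  intro w l hl hl1
  have hlh : 1 / 2 ≤ l := by linarith
  have hl0 : 0 ≤ l := by linarith
  -- the majorant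
  have hneg : ∀ y : S4, -⟪(w : E5), (y : E5)⟫_ℝ = ⟪((-w : S4) : E5), (y : E5)⟫_ℝ := by
    intro y
    rw [show ((-w : S4) : E5) = -(w : E5) from rfl, inner_neg_left]
  have hHi : Integrable (fun y : S4 => HH ⟪(w : E5), (y : E5)⟫_ℝ) sig := by
    unfold HH
    simp only [hneg]
    exact (hpow w).1.add (hpow (-w)).1
  have hHb : ∫ y : S4, HH ⟪(w : E5), (y : E5)⟫_ℝ ∂sig ≤ 2 * C₁ := by
    unfold HH
    simp only [hneg]
    rw [integral_add (hpow w).1 (hpow (-w)).1]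
    linarith [(hpow w).2, (hpow (-w)).2]
  have hgAi := integrable_cont (cont_zon w (cont_gA hl0 hl1))
  have hgBi := integrable_cont (cont_zon w (cont_gB hl0 hl1))
  have hA := intA w hl0 hl1
  have hB := intB w hl0 hl1
  have hA1 : c₁ ≤ ∫ y : S4, gA l ⟪(w : E5), (y : E5)⟫_ℝ ∂sig := by
    rw [hc₁, ← int_rot w w₀ cont1]
    exact integral_mono (integrable_cont (cont_zon w cont1)) hgAi
      (fun y => gA_lower hlh hl1 (ip_mem w y))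
  have hA2 : ∫ y : S4, gA l ⟪(w : E5), (y : E5)⟫_ℝ ∂sig ≤ 2 * C₁ :=
    (integral_mono hgAi hHi (fun y => gA_upper hl0 hl1 (ip_mem w y))).trans hHb
  have hB1 : l * (c₂ - (1 - l ^ 2) * C₁) ≤ ∫ y : S4, gB l ⟪(w : E5), (y : E5)⟫_ℝ ∂sig := by
    have h1 : ∫ y : S4, l * ((1 - ⟪(w : E5), (y : E5)⟫_ℝ ^ 2) ^ 2 -
        (1 - l ^ 2) * (HH ⟪(w : E5), (y : E5)⟫_ℝ / 2)) ∂sig ≤
        ∫ y : S4, gB l ⟪(w : E5), (y : E5)⟫_ℝ ∂sig := by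
      apply integral_mono _ hgBi (fun y => gB_lower hl0 hl1 (ip_mem w y))
      exact ((integrable_cont (cont_zon w cont2)).sub ((hHi.div_const 2).const_mul _)).const_mul _
    refine le_trans ?_ h1
    rw [integral_const_mul, integral_sub (integrable_cont (cont_zon w cont2))
      ((hHi.div_const 2).const_mul _), integral_const_mul, integral_div,
      int_rot w w₀ cont2, ← hc₂]
    apply mul_le_mul_of_nonneg_left _ hl0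
    have h2 : 0 ≤ 1 - l ^ 2 := by nlinarith
    nlinarith
  have hB2 : ∫ y : S4, gB l ⟪(w : E5), (y : E5)⟫_ℝ ∂sig ≤ msig := by
    have h1 := integral_mono hgBi (integrable_const (1 : ℝ))
      (fun y => gB_upper hl0 hl1 (ip_mem w y))
    refine h1.trans ?_
    rw [integral_const, smul_eq_mul, mul_one]
    rfl
  refine ⟨(∫ y : S4, gA l ⟪(w : E5), (y : E5)⟫_ℝ ∂sig) / 4,
    (∫ y : S4, gB l ⟪(w : E5), (y : E5)⟫_ℝ ∂sig) / 2, ?_, ?_, ?_, ?_, ?_⟩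
  · exact (min_le_left _ _).trans (by linarith)
  · linarith
  · refine (min_le_right _ _).trans ?_
    have h1 : (1 - l ^ 2) * C₁ ≤ c₂ / 2 := by
      have h2 : 1 - l ^ 2 ≤ 2 * δ := by nlinarith
      have h3 : (1 - l ^ 2) * C₁ ≤ 2 * δ * C₁ := mul_le_mul_of_nonneg_right h2 hC₁
      nlinarith
    have h4 : (1 / 2 : ℝ) * (c₂ / 2) ≤ l * (c₂ - (1 - l ^ 2) * C₁) :=
      mul_le_mul hlh (by linarith) (by positivity) hl0
    linarith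
  · linarith
  · intro T hT
    refine ⟨?_, ?_⟩
    · rw [first mow T hT w hl0 hl1]
      linear_combination (-(tr5 T - 5 * ⟪T (w : E5), (w : E5)⟫_ℝ) * (1 - l ^ 2) / 4) * hA
    · intro e he
      rw [second mow T hT w hl0 hl1 he, hB]

end Pool.Agent.PQP.H85
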